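import Mathlib

/-!
# Laws of random vertex sets

Finite probability laws on the finite subsets of a finite type: events, marginals, mixtures,
thinning, glueing along a common part, extension by a new vertex.
-/

set_option linter.unusedSectionVars false

namespace BDP

namespace Lw

open Finset Classical

/-- A probability law on the subsets of `V`. -/
structure Law (V : Type) [Fintype V] where
  /-- the weights -/
  w : Finset V → ℝ
  nonneg : ∀ I, 0 ≤ w I
  total : ∑ I, w I = 1

variable {V : Type} [Fintype V]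

/-- The probability of an event. -/
noncomputable def Law.pr (μ : Law V) (E : Finset V → Prop) : ℝ := ∑ I, if E I then μ.w I else 0

/-- The probability of a vertex. -/
noncomputable def Law.mg (μ : Law V) (v : V) : ℝ := μ.pr fun I => v ∈ I

/-- Almost surely. -/
def Law.As (μ : Law V) (P : Finset V → Prop) : Prop := ∀ I, μ.w I ≠ 0 → P I

/-- Independent sets. -/
def Ind (G : SimpleGraph V) (I : Finset V) : Prop := ∀ u ∈ I, ∀ v ∈ I, ¬G.Adj u v

namespace Law

variable (μ ν : Law V)

lemma As.mono {μ : Law V} {P Q : Finset V → Prop} (h : μ.As P) (hPQ : ∀ I, P I → Q I) : μ.As Q :=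
  fun I hI => hPQ I (h I hI)

lemma As.and {μ : Law V} {P Q : Finset V → Prop} (h : μ.As P) (h' : μ.As Q) :
    μ.As fun I => P I ∧ Q I := fun I hI => ⟨h I hI, h' I hI⟩

lemma pr_nonneg (E : Finset V → Prop) : 0 ≤ μ.pr E :=
  sum_nonneg fun I _ => by
    split_ifs
    · exact μ.nonneg I
    · exact le_rfl

lemma pr_true : (μ.pr fun _ => True) = 1 := by
  unfold pr
  simp only [if_true]
  exact μ.total

/-- Monotonicity on the support. -/
lemma pr_mono {E F : Finset V → Prop} (h : ∀ I, μ.w I ≠ 0 → E I → F I) : μ.pr E ≤ μ.pr F := by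
  refine sum_le_sum fun I _ => ?_
  by_cases hw : μ.w I = 0
  · rw [hw]
    simp
  · by_cases hE : E I
    · rw [if_pos hE, if_pos (h I hw hE)]
    · rw [if_neg hE]
      split_ifs
      · exact μ.nonneg I
      · exact le_rfl

lemma pr_congr {E F : Finset V → Prop} (h : ∀ I, μ.w I ≠ 0 → (E I ↔ F I)) : μ.pr E = μ.pr F :=
  le_antisymm (μ.pr_mono fun I hI => (h I hI).1) (μ.pr_mono fun I hI => (h I hI).2)

lemma pr_le_one (E : Finset V → Prop) : μ.pr E ≤ 1 := by
  rw [← μ.pr_true]
  exact μ.pr_mono fun _ _ _ => trivial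

lemma pr_compl (E : Finset V → Prop) : (μ.pr fun I => ¬E I) = 1 - μ.pr E := by
  have h : (μ.pr fun I => ¬E I) + μ.pr E = 1 := by
    rw [← μ.total]
    unfold pr
    rw [← sum_add_distrib]
    refine sum_congr rfl fun I _ => ?_
    by_cases hE : E I
    · simp [hE]
    · simp [hE]
  linarith

/-- Splitting an event. -/
lemma pr_split (E F : Finset V → Prop) :
    μ.pr E = (μ.pr fun I => E I ∧ F I) + μ.pr fun I => E I ∧ ¬F I := by
  unfold pr
  rw [← sum_add_distrib]
  refine sum_congr rfl fun I _ => ?_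
  by_cases hE : E I <;> by_cases hF : F I <;> simp [hE, hF]

lemma pr_or_le (E F : Finset V → Prop) : (μ.pr fun I => E I ∨ F I) ≤ μ.pr E + μ.pr F := by
  unfold pr
  rw [← sum_add_distrib]
  refine sum_le_sum fun I _ => ?_
  have := μ.nonneg I
  by_cases hE : E I <;> by_cases hF : F I <;> simp [hE, hF, this]

/-- The union bound. -/
lemma pr_exists_le {ι : Type} (s : Finset ι) (E : ι → Finset V → Prop) :
    (μ.pr fun I => ∃ i ∈ s, E i I) ≤ ∑ i ∈ s, μ.pr (E i) := by
  induction s using Finset.induction_on with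
  | empty =>
    rw [sum_empty]
    unfold pr
    simp
  | insert a s ha ih =>
    rw [sum_insert ha]
    refine le_trans ?_ (add_le_add (le_refl (μ.pr (E a))) ih)
    refine le_trans (μ.pr_mono fun I _ h => ?_) (μ.pr_or_le _ _)
    obtain ⟨i, hi, hEi⟩ := h
    rcases mem_insert.1 hi with rfl | hi
    · exact Or.inl hEi
    · exact Or.inr ⟨i, hi, hEi⟩

lemma w_le_pr {E : Finset V → Prop} {I : Finset V} (hE : E I) : μ.w I ≤ μ.pr E := by
  unfold pr
  refine le_trans ?_ (single_le_sum (f := fun I => if E I then μ.w I else 0)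
    (fun J _ => ?_) (mem_univ I))
  · rw [if_pos hE]
  · by_cases h : E J
    · simp [h, μ.nonneg J]
    · simp [h]

lemma pr_eq_zero {E : Finset V → Prop} (h : ∀ I, μ.w I ≠ 0 → ¬E I) : μ.pr E = 0 := by
  refine sum_eq_zero fun I _ => ?_
  by_cases hw : μ.w I = 0
  · rw [hw]
    simp
  · rw [if_neg (h I hw)]

/-- The law of a random set. -/
noncomputable def ofProb {Ω : Type} [Fintype Ω] (p : Ω → ℝ) (hp : ∀ ω, 0 ≤ p ω)
    (hs : ∑ ω, p ω = 1) (T : Ω → Finset V) : Law V where
  w := fun I => ∑ ω, if T ω = I then p ω else 0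
  nonneg := fun I => sum_nonneg fun ω _ => by
    split_ifs
    · exact hp ω
    · exact le_rfl
  total := by
    rw [sum_comm, ← hs]
    refine sum_congr rfl fun ω _ => ?_
    rw [sum_ite_eq univ (T ω) fun _ => p ω]
    simp

lemma pr_ofProb {Ω : Type} [Fintype Ω] (p : Ω → ℝ) (hp : ∀ ω, 0 ≤ p ω)
    (hs : ∑ ω, p ω = 1) (T : Ω → Finset V) (E : Finset V → Prop) :
    (ofProb p hp hs T).pr E = ∑ ω, if E (T ω) then p ω else 0 := by
  unfold pr ofProb
  have h1 : ∀ I : Finset V, (if E I then ∑ ω, (if T ω = I then p ω else 0) else 0) =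
      ∑ ω, if T ω = I then (if E (T ω) then p ω else 0) else 0 := by
    intro I
    by_cases hE : E I
    · rw [if_pos hE]
      refine sum_congr rfl fun ω _ => ?_
      by_cases h : T ω = I
      · rw [if_pos h, if_pos h, h, if_pos hE]
      · rw [if_neg h, if_neg h]
    · rw [if_neg hE]
      symm
      refine sum_eq_zero fun ω _ => ?_
      by_cases h : T ω = I
      · rw [if_pos h, h, if_neg hE]
      · rw [if_neg h]
  simp only [h1]
  rw [sum_comm]
  refine sum_congr rfl fun ω _ => ?_
  rw [sum_ite_eq univ (T ω) fun _ => if E (T ω) then p ω else 0]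
  simp

lemma as_ofProb {Ω : Type} [Fintype Ω] (p : Ω → ℝ) (hp : ∀ ω, 0 ≤ p ω)
    (hs : ∑ ω, p ω = 1) (T : Ω → Finset V) {P : Finset V → Prop}
    (h : ∀ ω, p ω ≠ 0 → P (T ω)) : (ofProb p hp hs T).As P := by
  intro I hI
  by_contra hP
  apply hI
  show (∑ ω, if T ω = I then p ω else 0) = 0
  refine sum_eq_zero fun ω _ => ?_
  by_cases hT : T ω = I
  · rw [if_pos hT]
    by_contra hpω
    exact hP (hT ▸ h ω hpω)
  · rw [if_neg hT]

/-- The image of a law. -/
noncomputable def map {W : Type} [Fintype W] (μ : Law W) (f : Finset W → Finset V) : Law V :=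
  ofProb μ.w μ.nonneg μ.total f

lemma pr_map {W : Type} [Fintype W] (μ : Law W) (f : Finset W → Finset V)
    (E : Finset V → Prop) : (μ.map f).pr E = μ.pr fun I => E (f I) :=
  pr_ofProb _ _ _ _ _

lemma as_map {W : Type} [Fintype W] (μ : Law W) (f : Finset W → Finset V)
    {P : Finset V → Prop} (h : μ.As fun I => P (f I)) : (μ.map f).As P :=
  as_ofProb _ _ _ _ h

/-- A random choice: the set `I` is replaced by `f I` with probability `t I`. -/
noncomputable def alt (μ : Law V) (t : Finset V → ℝ) (h0 : ∀ I, 0 ≤ t I) (h1 : ∀ I, t I ≤ 1)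
    (f : Finset V → Finset V) : Law V :=
  ofProb (Ω := Finset V × Bool) (fun q => μ.w q.1 * (if q.2 then t q.1 else 1 - t q.1))
    (fun q => by
      refine mul_nonneg (μ.nonneg _) ?_
      split_ifs
      · exact h0 _
      · have := h1 q.1
        linarith)
    (by
      rw [Fintype.sum_prod_type]
      refine Eq.trans (sum_congr rfl fun I _ => ?_) μ.total
      rw [Fintype.sum_bool]
      simp only [if_true, Bool.false_eq_true, if_false]
      ring)
    (fun q => if q.2 then f q.1 else q.1)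

variable {μ}

lemma pr_alt (t : Finset V → ℝ) (h0 : ∀ I, 0 ≤ t I) (h1 : ∀ I, t I ≤ 1)
    (f : Finset V → Finset V) (E : Finset V → Prop) :
    (μ.alt t h0 h1 f).pr E = ∑ I, μ.w I * ((if E (f I) then t I else 0) +
      if E I then 1 - t I else 0) := by
  unfold alt
  rw [pr_ofProb, Fintype.sum_prod_type]
  refine sum_congr rfl fun I _ => ?_
  rw [Fintype.sum_bool]
  simp only [if_true, Bool.false_eq_true, if_false]
  by_cases h : E (f I)
  · by_cases h' : E I
    · simp only [h, h', if_true]
      ring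
    · simp only [h, h', if_true, if_false]
      ring
  · by_cases h' : E I
    · simp only [h, h', if_true, if_false]
      ring
    · simp only [h, h', if_false]
      ring

lemma as_alt {t : Finset V → ℝ} {h0 : ∀ I, 0 ≤ t I} {h1 : ∀ I, t I ≤ 1}
    {f : Finset V → Finset V} {P : Finset V → Prop} (h : μ.As P)
    (hf : ∀ I, μ.w I ≠ 0 → t I ≠ 0 → P (f I)) : (μ.alt t h0 h1 f).As P := by
  refine as_ofProb _ _ _ _ ?_
  rintro ⟨I, b⟩ hq
  cases b with
  | false =>
    have h2 : μ.w I ≠ 0 := left_ne_zero_of_mul hq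
    exact h I h2
  | true =>
    have h2 : μ.w I ≠ 0 := left_ne_zero_of_mul hq
    have h3 : t I ≠ 0 := by
      have := right_ne_zero_of_mul hq
      simpa using this
    exact hf I h2 h3

/-- Events which the replacement does not change. -/
lemma pr_alt_of_iff {t : Finset V → ℝ} {h0 : ∀ I, 0 ≤ t I} {h1 : ∀ I, t I ≤ 1}
    {f : Finset V → Finset V} {E : Finset V → Prop}
    (h : ∀ I, μ.w I ≠ 0 → (E (f I) ↔ E I)) : (μ.alt t h0 h1 f).pr E = μ.pr E := by
  rw [pr_alt]
  unfold pr
  refine sum_congr rfl fun I _ => ?_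
  by_cases hw : μ.w I = 0
  · rw [hw]
    simp
  · by_cases hE : E I
    · rw [if_pos ((h I hw).2 hE), if_pos hE, if_pos hE]
      ring
    · rw [if_neg fun h' => hE ((h I hw).1 h'), if_neg hE, if_neg hE]
      ring

/-- A mixture of two laws. -/
noncomputable def mix (μ ν : Law V) (s : ℝ) (h0 : 0 ≤ s) (h1 : s ≤ 1) : Law V where
  w := fun I => (1 - s) * μ.w I + s * ν.w I
  nonneg := fun I => add_nonneg (mul_nonneg (by linarith) (μ.nonneg I)) (mul_nonneg h0 (ν.nonneg I))
  total := by
    rw [sum_add_distrib, ← mul_sum, ← mul_sum, μ.total, ν.total]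
    ring

lemma pr_mix {ν : Law V} {s : ℝ} (h0 : 0 ≤ s) (h1 : s ≤ 1) (E : Finset V → Prop) :
    (mix μ ν s h0 h1).pr E = (1 - s) * μ.pr E + s * ν.pr E := by
  unfold pr mix
  rw [mul_sum, mul_sum, ← sum_add_distrib]
  refine sum_congr rfl fun I _ => ?_
  by_cases hE : E I
  · simp [hE]
  · simp [hE]

lemma as_mix {ν : Law V} {s : ℝ} {h0 : 0 ≤ s} {h1 : s ≤ 1} {P : Finset V → Prop} (h : μ.As P)
    (h' : ν.As P) : (mix μ ν s h0 h1).As P := by
  intro I hI
  by_contra hP
  apply hI
  have h2 : μ.w I = 0 := by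
    by_contra hne
    exact hP (h I hne)
  have h3 : ν.w I = 0 := by
    by_contra hne
    exact hP (h' I hne)
  show (1 - s) * μ.w I + s * ν.w I = 0
  rw [h2, h3]
  ring

end Law

end Lw

end BDP
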