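import Pool.Agent.Work.MP_0890ba_co.BD.Pl.Law

/-!
# Operations on laws of random independent sets

Thinning, pulling back along a homomorphism, extension by stars, glueing, the crossing lemma.
-/

set_option linter.unusedSectionVars false

namespace BDP

namespace Lw

open Finset Classical

variable {V : Type} [Fintype V]

namespace Law

variable {μ : Law V}

/-! ### Thinning -/

/-- Thinning of a set of vertices by one coin. -/
lemma thin (μ : Law V) (S : Finset V) {q : ℝ} (h0 : 0 ≤ q) (h1 : q ≤ 1) :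
    ∃ ν : Law V, (∀ P : Finset V → Prop, μ.As P → (∀ I, P I → P (I \ S)) → ν.As P) ∧
      (∀ E : Finset V → Prop, (∀ I, E (I \ S) ↔ E I) → ν.pr E = μ.pr E) ∧
      ∀ E : Finset V → Prop, (∀ I, ¬E (I \ S)) → ν.pr E = q * μ.pr E := by
  refine ⟨μ.alt (fun _ => 1 - q) (fun _ => by linarith) (fun _ => by linarith) fun I => I \ S,
    fun P hP hS => as_alt hP fun I hI _ => hS I (hP I hI), fun E hE => pr_alt_of_iff fun I _ => hE I,
    fun E hE => ?_⟩
  rw [pr_alt]
  unfold pr
  rw [mul_sum]
  refine sum_congr rfl fun I _ => ?_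
  rw [if_neg (hE I)]
  by_cases h : E I
  · rw [if_pos h, if_pos h]
    ring
  · rw [if_neg h, if_neg h]
    ring

/-- A law with exact smaller marginals. -/
lemma exact (μ : Law V) {d : V → ℝ} (h0 : ∀ v, 0 ≤ d v) (hd : ∀ v, d v ≤ μ.mg v) :
    ∃ ν : Law V, (∀ P : Finset V → Prop, μ.As P → (∀ I J, P I → J ⊆ I → P J) → ν.As P) ∧
      ∀ v, ν.mg v = d v := by
  have key : ∀ S : Finset V, ∃ ν : Law V,
      (∀ P : Finset V → Prop, μ.As P → (∀ I J, P I → J ⊆ I → P J) → ν.As P) ∧
      (∀ v ∈ S, ν.mg v = d v) ∧ ∀ v ∉ S, ν.mg v = μ.mg v := by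
    intro S
    induction S using Finset.induction_on with
    | empty => exact ⟨μ, fun P hP _ => hP, fun v hv => absurd hv (notMem_empty v), fun v _ => rfl⟩
    | insert a S ha ih =>
      obtain ⟨ν, h1, h2, h3⟩ := ih
      have hle : d a ≤ ν.mg a := (h3 a ha).symm ▸ hd a
      have hm : 0 ≤ ν.mg a := ν.pr_nonneg _
      obtain ⟨ρ, r1, r2, r3⟩ := thin ν {a} (q := if ν.mg a = 0 then 0 else d a / ν.mg a)
        (by
          split_ifs
          · exact le_rfl
          · exact div_nonneg (h0 a) hm)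
        (by
          split_ifs with h
          · exact zero_le_one
          · exact div_le_one_of_le₀ hle hm)
      refine ⟨ρ, fun P hP hs => r1 P (h1 P hP hs) fun I hI => hs I _ hI sdiff_subset, ?_, ?_⟩
      · intro v hv
        rcases mem_insert.1 hv with rfl | hv
        · have h4 : ρ.mg v = (if ν.mg v = 0 then 0 else d v / ν.mg v) * ν.mg v :=
            r3 (fun I => v ∈ I) fun I h => (mem_sdiff.1 h).2 (mem_singleton_self v)
          rw [h4]
          split_ifs with h
          · have := h0 v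
            rw [h] at hle
            linarith
          · exact div_mul_cancel₀ _ h
        · have hne : v ≠ a := fun h => ha (h ▸ hv)
          rw [← h2 v hv]
          exact r2 (fun I => v ∈ I) fun I => ⟨fun h => (mem_sdiff.1 h).1, fun h =>
            mem_sdiff.2 ⟨h, fun h' => hne (mem_singleton.1 h')⟩⟩
      · intro v hv
        have hne : v ≠ a := fun h => hv (h ▸ mem_insert_self _ _)
        rw [← h3 v fun h => hv (mem_insert_of_mem h)]
        exact r2 (fun I => v ∈ I) fun I => ⟨fun h => (mem_sdiff.1 h).1, fun h =>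
          mem_sdiff.2 ⟨h, fun h' => hne (mem_singleton.1 h')⟩⟩
  obtain ⟨ν, h1, h2, -⟩ := key univ
  exact ⟨ν, h1, fun v => h2 v (mem_univ v)⟩

lemma ind_sub {G : SimpleGraph V} {I J : Finset V} (h : Ind G I) (hJ : J ⊆ I) : Ind G J :=
  fun u hu v hv => h u (hJ hu) v (hJ hv)

/-! ### Pulling back -/

/-- The law of the preimages. -/
noncomputable def pull {W : Type} [Fintype W] (μ : Law W) (A : Finset V) (f : V → W) : Law V :=
  μ.map fun I => A.filter fun v => f v ∈ I

lemma pr_pull {W : Type} [Fintype W] (μ : Law W) (A : Finset V) (f : V → W)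
    (E : Finset V → Prop) : (μ.pull A f).pr E = μ.pr fun I => E (A.filter fun v => f v ∈ I) :=
  pr_map _ _ _

lemma mg_pull {W : Type} [Fintype W] (μ : Law W) (A : Finset V) (f : V → W) (v : V) :
    (μ.pull A f).mg v = if v ∈ A then μ.mg (f v) else 0 := by
  unfold mg
  rw [pr_pull]
  by_cases hv : v ∈ A
  · rw [if_pos hv]
    refine pr_congr _ fun I _ => ?_
    rw [mem_filter]
    exact ⟨fun h => h.2, fun h => ⟨hv, h⟩⟩
  · rw [if_neg hv]
    exact pr_eq_zero _ fun I _ h => hv (mem_filter.1 h).1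

lemma ind_pull {W : Type} [Fintype W] {μ : Law W} {G : SimpleGraph V} {G' : SimpleGraph W}
    (hμ : μ.As (Ind G')) {A : Finset V} {f : V → W}
    (hf : ∀ u ∈ A, ∀ v ∈ A, G.Adj u v → G'.Adj (f u) (f v)) : (μ.pull A f).As (Ind G) :=
  as_map _ _ fun I hI u hu v hv huv => hμ I hI (f u) (mem_filter.1 hu).2 (f v) (mem_filter.1 hv).2
    (hf u (mem_filter.1 hu).1 v (mem_filter.1 hv).1 huv)

/-! ### Extensions -/

/-- The vertex `v` has no neighbour in `I`. -/
def Free (G : SimpleGraph V) (v : V) (I : Finset V) : Prop := ∀ u ∈ I, ¬G.Adj v u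

/-- Adding the vertex `v` with a probability which depends on the set. -/
lemma add {G : SimpleGraph V} (hI : μ.As (Ind G)) {v : V} (hv : μ.As fun I => v ∉ I)
    {t : Finset V → ℝ} (h0 : ∀ I, 0 ≤ t I) (h1 : ∀ I, t I ≤ 1) (ht : ∀ I, t I ≠ 0 → Free G v I) :
    ∃ ν : Law V, ν.As (Ind G) ∧ ν.mg v = ∑ I, μ.w I * t I ∧
      (∀ P : Finset V → Prop, μ.As P → (∀ I, P I → P (insert v I)) → ν.As P) ∧
      (∀ E : Finset V → Prop, (∀ I, E (insert v I) ↔ E I) → ν.pr E = μ.pr E) ∧
      ∀ E : Finset V → Prop, ∑ I, μ.w I * (if E I then 1 - t I else 0) ≤ ν.pr E := by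
  refine ⟨μ.alt t h0 h1 (insert v), ?_, ?_, ?_, ?_, ?_⟩
  · refine as_alt hI fun I hw htI => ?_
    have hind := hI I hw
    have hfree := ht I htI
    intro a ha b hb hab
    rcases mem_insert.1 ha with h1 | h1
    · rcases mem_insert.1 hb with h2 | h2
      · rw [h1, h2] at hab
        exact G.loopless.irrefl v hab
      · rw [h1] at hab
        exact hfree b h2 hab
    · rcases mem_insert.1 hb with h2 | h2
      · rw [h2] at hab
        exact hfree a h1 hab.symm
      · exact hind a h1 b h2 hab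
  · unfold mg
    rw [pr_alt]
    refine sum_congr rfl fun I _ => ?_
    rw [if_pos (mem_insert_self v I)]
    by_cases hw : μ.w I = 0
    · rw [hw]
      ring
    · rw [if_neg (hv I hw)]
      ring
  · exact fun P hP hs => as_alt hP fun I hw _ => hs I (hP I hw)
  · exact fun E hE => pr_alt_of_iff fun I _ => hE I
  · intro E
    rw [pr_alt]
    refine sum_le_sum fun I _ => mul_le_mul_of_nonneg_left ?_ (μ.nonneg I)
    have : (0 : ℝ) ≤ if E (insert v I) then t I else 0 := by
      split_ifs
      · exact h0 I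
      · exact le_rfl
    linarith

/-- Adding a vertex which is free with large probability. -/
lemma add_free {G : SimpleGraph V} (hI : μ.As (Ind G)) {v : V} (hv : μ.As fun I => v ∉ I) {s : ℝ}
    (hs : 0 ≤ s) (hf : s ≤ μ.pr (Free G v)) :
    ∃ ν : Law V, ν.As (Ind G) ∧ ν.mg v = s ∧
      (∀ P : Finset V → Prop, μ.As P → (∀ I, P I → P (insert v I)) → ν.As P) ∧
      (∀ E : Finset V → Prop, (∀ I, E (insert v I) ↔ E I) → ν.pr E = μ.pr E) ∧
      ∀ E : Finset V → Prop, (1 - s / μ.pr (Free G v)) * μ.pr E ≤ ν.pr E := by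
  set a := μ.pr (Free G v) with ha
  have ha0 : 0 ≤ a := μ.pr_nonneg _
  have hq0 : 0 ≤ s / a := div_nonneg hs ha0
  have hq1 : s / a ≤ 1 := div_le_one_of_le₀ hf ha0
  obtain ⟨ν, n1, n2, n3, n4, n5⟩ := add hI hv (t := fun I => if Free G v I then s / a else 0)
    (fun I => by
      split_ifs
      · exact hq0
      · exact le_rfl)
    (fun I => by
      split_ifs
      · exact hq1
      · exact zero_le_one)
    (fun I h => by
      by_contra hno
      rw [if_neg hno] at h
      exact h rfl)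
  refine ⟨ν, n1, ?_, n3, n4, fun E => le_trans ?_ (n5 E)⟩
  · rw [n2]
    have h1 : ∑ I, μ.w I * (if Free G v I then s / a else 0) = s / a * a := by
      rw [ha]
      unfold pr
      rw [mul_sum]
      refine sum_congr rfl fun I _ => ?_
      by_cases h : Free G v I
      · rw [if_pos h, if_pos h]
        ring
      · rw [if_neg h, if_neg h]
        ring
    rw [h1]
    by_cases h : a = 0
    · rw [h] at hf ⊢
      have : s = 0 := le_antisymm hf hs
      rw [this]
      simp
    · exact div_mul_cancel₀ _ h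
  · unfold pr
    rw [mul_sum]
    refine sum_le_sum fun I _ => ?_
    have hw := μ.nonneg I
    by_cases hE : E I
    · rw [if_pos hE, if_pos hE]
      by_cases h : Free G v I
      · rw [if_pos h]
        exact le_of_eq (mul_comm _ _)
      · rw [if_neg h]
        nlinarith
    · rw [if_neg hE, if_neg hE]
      simp

/-- Adding several pairwise non-adjacent vertices. -/
lemma add_many {G : SimpleGraph V} {s : ℝ} (hs : 0 ≤ s) (S : Finset V) :
    ∀ {μ : Law V}, μ.As (Ind G) → (μ.As fun I => ∀ v ∈ S, v ∉ I) →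
      (∀ u ∈ S, ∀ v ∈ S, ¬G.Adj u v) → (∀ v ∈ S, s ≤ μ.pr (Free G v)) →
      ∃ ν : Law V, ν.As (Ind G) ∧ (∀ v ∈ S, ν.mg v = s) ∧ ∀ v ∉ S, ν.mg v = μ.mg v := by
  induction S using Finset.induction_on with
  | empty =>
    exact fun {μ} h1 _ _ _ => ⟨μ, h1, fun v hv => absurd hv (notMem_empty v), fun v _ => rfl⟩
  | insert a S ha ih =>
    intro μ h1 h2 h3 h4
    have haS : ∀ v ∈ S, v ≠ a := fun v hv h => ha (h ▸ hv)
    obtain ⟨ν, n1, n2, n3, n4, -⟩ := add_free h1 (v := a)
      (h2.mono fun I hI => hI a (mem_insert_self _ _)) hs (h4 a (mem_insert_self _ _))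
    obtain ⟨ρ, r1, r2, r3⟩ := ih (μ := ν) n1
      (n3 (fun I => ∀ v ∈ S, v ∉ I) (h2.mono fun I hI v hv => hI v (mem_insert_of_mem hv))
        fun I hI v hv h => by
          rcases mem_insert.1 h with h | h
          · exact haS v hv h
          · exact hI v hv h)
      (fun u hu v hv => h3 u (mem_insert_of_mem hu) v (mem_insert_of_mem hv))
      (fun v hv => by
        rw [n4 (Free G v) fun I => ⟨fun h u hu => h u (mem_insert_of_mem hu), fun h u hu => by
          rcases mem_insert.1 hu with rfl | hu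
          · exact h3 v (mem_insert_of_mem hv) u (mem_insert_self _ _)
          · exact h u hu⟩]
        exact h4 v (mem_insert_of_mem hv))
    refine ⟨ρ, r1, fun v hv => ?_, fun v hv => ?_⟩
    · rcases mem_insert.1 hv with rfl | hv
      · rw [r3 v ha, n2]
      · exact r2 v hv
    · have hva : v ≠ a := fun h => hv (h ▸ mem_insert_self _ _)
      have hvS : v ∉ S := fun h => hv (mem_insert_of_mem h)
      rw [r3 v hvS]
      exact n4 (fun I => v ∈ I) fun I => ⟨fun h => (mem_insert.1 h).resolve_left hva,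
        fun h => mem_insert_of_mem h⟩

/-- The star extension, product form: the centre `c` with probability `q`, then the leaves. -/
theorem star {G : SimpleGraph V} (hI : μ.As (Ind G)) {c : V} {S : Finset V} {q s : ℝ} (hq : 0 ≤ q)
    (hs : 0 ≤ s) (hcS : c ∉ S) (hc : μ.As fun I => c ∉ I) (hS : μ.As fun I => ∀ v ∈ S, v ∉ I)
    (hSS : ∀ u ∈ S, ∀ v ∈ S, ¬G.Adj u v) (h1 : q ≤ μ.pr (Free G c))
    (h2 : ∀ v ∈ S, s ≤ (1 - q / μ.pr (Free G c)) * μ.pr (Free G v)) :
    ∃ ν : Law V, ν.As (Ind G) ∧ ν.mg c = q ∧ (∀ v ∈ S, ν.mg v = s) ∧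
      ∀ v, v ≠ c → v ∉ S → ν.mg v = μ.mg v := by
  obtain ⟨ν, n1, n2, n3, n4, n5⟩ := add_free hI hc hq h1
  obtain ⟨ρ, r1, r2, r3⟩ := add_many hs S n1
    (n3 _ hS fun I hI v hv h => by
      rcases mem_insert.1 h with rfl | h
      · exact hcS hv
      · exact hI v hv h) hSS fun v hv => (h2 v hv).trans (n5 _)
  refine ⟨ρ, r1, by rw [r3 c hcS, n2], r2, fun v hv hvS => ?_⟩
  rw [r3 v hvS]
  exact n4 (fun I => v ∈ I) fun I => ⟨fun h => (mem_insert.1 h).resolve_left hv,
    fun h => mem_insert_of_mem h⟩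

end Law

end Lw

end BDP
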